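import Mathlib
import Pool.Agent.H81.HM.Fin3

/-!
# MP_dafbe7_nt, Q2: the conjectured asymptotics for hybrid moments of error terms is false

There are `64` entire elements of the Selberg class with real coefficients, of integer degrees
`d₁ < ... < d₆₄`, each of which has a second moment asymptotic (with a positive constant and a power saving), and
for which `∫_1^T ∏ E_{f_j}(x)^2 dx` is not `O(T ^ (1 + σ))`, and even exceeds `c T ^ (1 + σ + η)` for some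
`c, η > 0` and arbitrarily large `T`; here `σ = ∑ 2 (d_j - 1) / (2 d_j)`.
-/

set_option autoImplicit false

namespace Pool.Agent.Results.MP_dafbe7_nt.EvenHybridMomentsFail

open Pool.Agent.H13R3.EM (Sel)

/-- `F`, of degree `d`, has an `ℓ`-th moment asymptotic with the constant `C ≠ 0`: for some `δ > 0` and every `ε > 0`,
`∫_1^T E_F(x) ^ ℓ dx = C T ^ (1 + ℓ (d - 1) / (2 d)) + O(T ^ (1 + ℓ (d - 1) / (2 d) - δ + ε))`. -/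
def Moment (F : Sel) (d ℓ : ℕ) (C : ℂ) : Prop :=
  C ≠ 0 ∧ ∃ δ : ℝ, 0 < δ ∧ ∀ ε : ℝ, 0 < ε → ∃ K : ℝ, ∀ T : ℝ, 1 ≤ T →
    ‖(∫ x in (1:ℝ)..T, F.err x ^ ℓ) - C * ((T ^ (1 + (ℓ:ℝ) * ((d:ℝ) - 1) / (2 * (d:ℝ))) : ℝ) : ℂ)‖ ≤
      K * T ^ (1 + (ℓ:ℝ) * ((d:ℝ) - 1) / (2 * (d:ℝ)) - δ + ε)

/-- the exponent `σ = ∑ ℓ_j (d_j - 1) / (2 d_j)` -/
noncomputable def sig {k : ℕ} (d ℓ : Fin k → ℕ) : ℝ := ∑ j, (ℓ j : ℝ) * ((d j : ℝ) - 1) / (2 * (d j : ℝ))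

/-- `∫_1^T ∏ E_{f_j}(x) ^ ℓ_j dx = C T ^ (1 + σ) + O(T ^ (1 + σ - δ + ε))` for some `δ > 0` and every `ε > 0`. -/
def Hybrid {k : ℕ} (d ℓ : Fin k → ℕ) (F : Fin k → Sel) (C : ℂ) : Prop :=
  ∃ δ : ℝ, 0 < δ ∧ ∀ ε : ℝ, 0 < ε → ∃ K : ℝ, ∀ T : ℝ, 1 ≤ T →
    ‖(∫ x in (1:ℝ)..T, ∏ j, (F j).err x ^ ℓ j) - C * ((T ^ (1 + sig d ℓ) : ℝ) : ℂ)‖ ≤
      K * T ^ (1 + sig d ℓ - δ + ε)

/-- Q2 of the problem: for all `k ≥ 2`, `2 ≤ d_1 < ... < d_k`, `ℓ_j ≥ 2` there is `C₀ ≠ 0` such that for all elements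
`F_j` of the Selberg class of degree `d_j` having an `ℓ_j`-th moment asymptotic with the constant `C_j`, the hybrid
moment has the asymptotics with the constant `C₀ ∏ C_j`. -/
def Q2 : Prop := ∀ (k : ℕ) (d ℓ : Fin k → ℕ), 2 ≤ k → StrictMono d → (∀ j, 2 ≤ d j) → (∀ j, 2 ≤ ℓ j) →
  ∃ C₀ : ℂ, C₀ ≠ 0 ∧ ∀ (F : Fin k → Sel) (C : Fin k → ℂ), (∀ j, (F j).deg = (d j : ℝ)) →
    (∀ j, Moment (F j) (d j) (ℓ j) (C j)) → Hybrid d ℓ F (C₀ * ∏ j, C j)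

/-- The failure: data with `k = 64` and `ℓ_j = 2` which satisfy the hypotheses of Q2, with the integral exceeding
`c T ^ (1 + σ + η)` for arbitrarily large `T`. -/
def Failure : Prop := ∃ (d : Fin 64 → ℕ) (F : Fin 64 → Sel) (C : Fin 64 → ℝ), StrictMono d ∧ (∀ j, 2 ≤ d j) ∧
  (∀ j, (F j).deg = (d j : ℝ)) ∧ (∀ j, (F j).m0 = 0) ∧ (∀ j, ∀ n : ℕ, 1 ≤ n → ((F j).a n).im = 0) ∧
  (∀ j, 0 < C j ∧ Moment (F j) (d j) 2 (C j : ℂ)) ∧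
  ∃ η c : ℝ, 0 < η ∧ 0 < c ∧ ∀ T₀ : ℝ, ∃ T : ℝ, T₀ ≤ T ∧ 1 ≤ T ∧
    c * T ^ (1 + sig d (fun _ => 2) + η) ≤ ‖∫ x in (1:ℝ)..T, ∏ j, (F j).err x ^ 2‖

theorem failure : Failure := by
  obtain ⟨d, F, C, hd, hd2, hdeg, hm, him, hM, h⟩ := Pool.Agent.H81.HM.final
  exact ⟨d, F, C, hd, hd2, hdeg, hm, him, fun j => ⟨(hM j).1, by exact_mod_cast (hM j).1.ne', (hM j).2⟩, h⟩

/-- **Q2 is false**, with the quantitative form of the failure. -/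
theorem result : ¬ Q2 ∧ Failure := by
  refine ⟨fun hQ => ?_, failure⟩
  obtain ⟨d, F, C, hd, hd2, hdeg, -, -, hM, η, c, hη, hc, h⟩ := failure
  obtain ⟨C₀, -, hC⟩ := hQ 64 d (fun _ => 2) (by norm_num) hd hd2 (fun _ => le_rfl)
  exact Pool.Agent.H81.HM.no_asym hη hc h _ (hC F (fun j => (C j : ℂ)) hdeg fun j => (hM j).2)

end Pool.Agent.Results.MP_dafbe7_nt.EvenHybridMomentsFail
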